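import Pool.Agent.Run7.h991.BC.Iface

set_option autoImplicit false

open MeasureTheory FourierTransform SchwartzMap
open scoped ENNReal ContDiff

namespace Run7.h781.BC

open Run7.h991.BC

theorem exists_t (C1 C2 p s : ℝ) (N n : ℕ) (hC1 : 0 < C1) (hC2 : 0 < C2) (hs : 0 < s)
    (h : (N : ℝ) * p < n) :
    ∃ t : ℕ, (C1 * (((1 / 2 : ℝ) ^ t / s)⁻¹) ^ N) ^ p * (C2 * (1 / 2) ^ (t * n)) ≤ 1 / 2 := by
  set ρ : ℝ := (2 : ℝ) ^ ((N : ℝ) * p - n) with hρ
  have hρ1 : ρ < 1 := Real.rpow_lt_one_of_one_lt_of_neg (by norm_num) (by linarith)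
  have hρ0 : 0 < ρ := Real.rpow_pos_of_pos (by norm_num) _
  set K1 : ℝ := (C1 * s ^ N) ^ p * C2 with hK1
  have hK0 : 0 < K1 := mul_pos (Real.rpow_pos_of_pos (mul_pos hC1 (pow_pos hs N)) _) hC2
  obtain ⟨t, ht⟩ := exists_pow_lt_of_lt_one (show (0 : ℝ) < 1 / (2 * K1) by positivity) hρ1
  refine ⟨t, ?_⟩
  have e1 : (((1 / 2 : ℝ) ^ t / s)⁻¹) = s * 2 ^ t := by
    rw [inv_div, one_div, inv_pow, div_inv_eq_mul]
  have e2 : (C1 * (s * 2 ^ t) ^ N) ^ p = (C1 * s ^ N) ^ p * (2 : ℝ) ^ ((t : ℝ) * N * p) := by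
    rw [mul_pow, ← mul_assoc, Real.mul_rpow (by positivity) (by positivity)]
    congr 1
    rw [← pow_mul, ← Real.rpow_natCast, ← Real.rpow_mul (by norm_num)]
    push_cast
    ring_nf
  have e3 : (1 / 2 : ℝ) ^ (t * n) = (2 : ℝ) ^ (-((t : ℝ) * n)) := by
    rw [Real.rpow_neg (by norm_num), one_div, inv_pow, ← Real.rpow_natCast]
    push_cast
    ring_nf
  have e4 : (C1 * (((1 / 2 : ℝ) ^ t / s)⁻¹) ^ N) ^ p * (C2 * (1 / 2) ^ (t * n)) = K1 * ρ ^ t := by
    have e5 : ρ ^ t = (2 : ℝ) ^ (((N : ℝ) * p - n) * t) := by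
      rw [hρ, ← Real.rpow_natCast, ← Real.rpow_mul (by norm_num)]
    have e6 : (2 : ℝ) ^ ((t : ℝ) * N * p) * (2 : ℝ) ^ (-((t : ℝ) * n)) =
        (2 : ℝ) ^ (((N : ℝ) * p - n) * t) := by
      rw [← Real.rpow_add (by norm_num)]
      congr 1
      ring
    rw [e1, e2, e3, hK1, e5, ← e6]
    ring
  rw [e4]
  calc K1 * ρ ^ t ≤ K1 * (1 / (2 * K1)) := mul_le_mul_of_nonneg_left ht.le hK0.le
    _ = 1 / 2 := by field_simp

section smooth

variable {n M : ℕ}

theorem comp_support {β : E n → ℝ} (hβ : HasCompactSupport β) (z : E n) {l : ℝ} (hl : 0 < l) :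
    HasCompactSupport (fun x => β (z + l⁻¹ • (x - z))) := by
  have h : l⁻¹ ≠ 0 := inv_ne_zero hl.ne'
  exact hβ.comp_homeomorph ((Homeomorph.subRight z).trans
    ((Homeomorph.smulOfNeZero l⁻¹ h).trans (Homeomorph.addLeft z)))

theorem atm_smooth {β : E n → ℝ} (hβ : ContDiff ℝ ∞ β) (l w : Fin M → ℝ) (z : E n) :
    ContDiff ℝ ∞ (atm β l w z) := by
  unfold atm
  refine hβ.sub (ContDiff.sum fun k _ => ?_)
  refine contDiff_const.mul (hβ.comp ?_)
  fun_prop

theorem atm_support {β : E n → ℝ} (hβ : HasCompactSupport β) {l w : Fin M → ℝ} (z : E n)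
    (hl : ∀ k, 0 < l k) : HasCompactSupport (atm β l w z) := by
  have h1 : HasCompactSupport (fun x => ∑ k, w k * ((l k)⁻¹) ^ n * β (z + (l k)⁻¹ • (x - z))) := by
    classical
    induction (Finset.univ : Finset (Fin M)) using Finset.induction_on with
    | empty =>
      simp only [Finset.sum_empty]
      exact (HasCompactSupport.zero : HasCompactSupport (0 : E n → ℝ))
    | insert k s hk ih =>
      simp_rw [Finset.sum_insert hk]
      exact (HasCompactSupport.mul_left (comp_support hβ z (hl k))).add ih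
  exact hβ.sub h1

theorem comp_affine_smooth {f : E n → ℝ} (hf : ContDiff ℝ ∞ f) (c : ℝ) (b : E n) :
    ContDiff ℝ ∞ (fun x => f (c • x - b)) :=
  hf.comp (by fun_prop)

theorem comp_affine_support {f : E n → ℝ} (hf : HasCompactSupport f) {c : ℝ} (hc : c ≠ 0)
    (b : E n) : HasCompactSupport (fun x => f (c • x - b)) :=
  hf.comp_homeomorph ((Homeomorph.smulOfNeZero c hc).trans (Homeomorph.subRight b))

end smooth


theorem atm_lower {n M : ℕ} {β : E n → ℝ} (hβ : ∀ y, 0 ≤ β y ∧ β y ≤ 1) {l w : Fin M → ℝ}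
    (hl : ∀ k, 0 < l k) (z x : E n) :
    β x - ∑ k, |w k| * ((l k)⁻¹) ^ n ≤ atm β l w z x := by
  unfold atm
  apply sub_le_sub_left
  apply Finset.sum_le_sum
  intro k _
  have h1 : 0 ≤ ((l k)⁻¹) ^ n := pow_nonneg (inv_nonneg.mpr (hl k).le) n
  obtain ⟨h2, h3⟩ := hβ (z + (l k)⁻¹ • (x - z))
  calc w k * ((l k)⁻¹) ^ n * β (z + (l k)⁻¹ • (x - z))
      ≤ |w k| * ((l k)⁻¹) ^ n * β (z + (l k)⁻¹ • (x - z)) :=
        mul_le_mul_of_nonneg_right (mul_le_mul_of_nonneg_right (le_abs_self _) h1) h2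
    _ ≤ |w k| * ((l k)⁻¹) ^ n * 1 :=
        mul_le_mul_of_nonneg_left h3 (mul_nonneg (abs_nonneg _) h1)
    _ = |w k| * ((l k)⁻¹) ^ n := mul_one _

theorem atm_eq {n M : ℕ} {β : E n → ℝ} {l w : Fin M → ℝ} (z x : E n)
    (h : ∀ k, β (z + (l k)⁻¹ • (x - z)) = 0) : atm β l w z x = β x := by
  unfold atm
  rw [Finset.sum_eq_zero, sub_zero]
  intro k _
  rw [h k, mul_zero]

theorem sum_support {n : ℕ} {ι : Type} (s : Finset ι) (c : ι → ℝ) (f : ι → E n → ℝ)
    (h : ∀ i, HasCompactSupport (f i)) : HasCompactSupport (fun x => ∑ i ∈ s, c i * f i x) := by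
  classical
  induction s using Finset.induction_on with
  | empty =>
    simp only [Finset.sum_empty]
    exact (HasCompactSupport.zero : HasCompactSupport (0 : E n → ℝ))
  | insert k s hk ih =>
    simp_rw [Finset.sum_insert hk]
    exact (HasCompactSupport.mul_left (h k)).add ih

theorem side_pos (j : ℕ) : 0 < side j := by
  unfold side
  positivity

theorem numM {n : ℕ} (hn : 1 ≤ n) {α p : ℝ} (hα : 0 < α) (hp : 0 < p) (hp1 : p < 1) (M : ℕ)
    (hM : M = ⌊(n : ℝ) * (1 / p - 1) - α⌋₊ + 1) :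
    (n : ℝ) < α * p + (n + M) * p ∧ ((n + M - 1 : ℕ) : ℝ) * p < n := by
  have hn0 : (1 : ℝ) ≤ n := by exact_mod_cast hn
  have h1 : (n : ℝ) * (1 / p - 1) - α < M := by
    rw [hM]
    push_cast
    exact Nat.lt_floor_add_one _
  have e : ((n : ℝ) * (1 / p - 1) - α) * p = n - n * p - α * p := by
    field_simp
  constructor
  · have h2 := mul_lt_mul_of_pos_right h1 hp
    rw [e] at h2
    linarith
  · have h3 : (n + M - 1 : ℕ) = n + ⌊(n : ℝ) * (1 / p - 1) - α⌋₊ := by omega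
    rw [h3]
    push_cast
    rcases le_or_gt 0 ((n : ℝ) * (1 / p - 1) - α) with h | h
    · have h4 := Nat.floor_le h
      have h5 := mul_le_mul_of_nonneg_right h4 hp.le
      rw [e] at h5
      have : 0 < α * p := mul_pos hα hp
      linarith
    · rw [Nat.floor_of_nonpos h.le]
      push_cast
      nlinarith

theorem t_UBA (hDY : S_DY) (hLW : S_LW) (hAC : S_AC) (hPT : S_PT) (hPK : S_PK) (hSEL : S_SEL)
    (hMU : S_MU) (hGEO : S_GEO) : S_UBA := by
  classical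
  intro n hn Φ hΦ α p hα hp hp1 hαp
  have hn0 : (1 : ℝ) ≤ n := by exact_mod_cast hn
  obtain ⟨β, hβ1, hβ2, hβ3, hG1, hG2⟩ := hGEO n hn
  obtain ⟨d, hd⟩ : ∃ d : ℝ, d = n - α * p := ⟨_, rfl⟩
  have hαp0 : 0 < α * p := mul_pos hα hp
  have hd0 : 0 < d := by linarith
  have hdn : d < n := by linarith
  obtain ⟨C2, hC2, hS⟩ := hSEL n d hd0 hdn
  obtain ⟨M, hM⟩ : ∃ M, M = ⌊(n : ℝ) * (1 / p - 1) - α⌋₊ + 1 := ⟨_, rfl⟩
  have hM1 : 1 ≤ M := by omega
  obtain ⟨ha, hb⟩ := numM hn hα hp hp1 M hM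
  obtain ⟨C1, hC1, hW⟩ := hLW n M hM1
  have hsn : 1 ≤ Real.sqrt n := by
    rw [show (1 : ℝ) = Real.sqrt 1 by simp]
    exact Real.sqrt_le_sqrt hn0
  have hs8 : 0 < 8 * Real.sqrt n := by linarith
  obtain ⟨t, ht⟩ := exists_t C1 C2 p (8 * Real.sqrt n) (n + M - 1) n hC1 hC2 hs8 hb
  obtain ⟨l0, hl0d⟩ : ∃ l0 : ℝ, l0 = (1 / 2) ^ t / (8 * Real.sqrt n) := ⟨_, rfl⟩
  have hl0 : 0 < l0 := by rw [hl0d]; positivity
  have hl01 : l0 ≤ 1 := by
    rw [hl0d, div_le_one hs8]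
    have : ((1 : ℝ) / 2) ^ t ≤ 1 := pow_le_one₀ (by norm_num) (by norm_num)
    linarith
  rw [← hl0d] at ht
  obtain ⟨l, w, hl, hlw, hsum⟩ := hW l0 hl0 hl01
  obtain ⟨h, hh⟩ : ∃ h : ℝ, h = ∑ k, |w k| * ((l k)⁻¹) ^ n := ⟨_, rfl⟩
  have hh0 : 0 ≤ h := by
    rw [hh]
    exact Finset.sum_nonneg fun k _ => mul_nonneg (abs_nonneg _)
      (pow_nonneg (inv_nonneg.mpr (hl k).1.le) n)
  rw [← hh] at hsum
  have hc2 : 0 ≤ C2 * (1 / 2 : ℝ) ^ (t * n) := by positivity
  have hhp : h ^ p * (C2 * (1 / 2) ^ (t * n)) ≤ 1 / 2 :=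
    le_trans (mul_le_mul_of_nonneg_right (Real.rpow_le_rpow hh0 hsum hp.le) hc2) ht
  obtain ⟨C3, hC3, hA1, hA2⟩ := hAC n M Φ hn hΦ α p hα hp hp1 hM1 ha l w
    (fun k => ⟨(hl k).1, (hl k).2.trans hl01⟩) hlw β hβ1 hβ2 (2 * Real.sqrt n)
  refine ⟨C3 * 2, ENNReal.mul_ne_top hC3 (by norm_num), fun F => ?_⟩
  obtain ⟨R, hR1, hR2, hR3, hR4⟩ := hPK n d hd0 F
  -- the poles
  have hsel : ∀ q : ℕ × (Fin n → ℤ), ∃ m' : Fin n → ℤ, q ∈ R → q.1 ≠ 0 →
      (cube (q.1 + t) m' ⊆ cube (q.1 - 1) (par q.2) ∧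
      (∀ q' ∈ R, ¬ cube (q.1 + t) m' ⊆ cube q'.1 q'.2) ∧
      ∀ R' : Finset (ℕ × (Fin n → ℤ)),
        (∀ q', q' ∈ R' ↔ (q' ∈ R ∧ cube q'.1 q'.2 ⊆ cube (q.1 + t) m')) →
        ∑ q' ∈ R', side q'.1 ^ d ≤ C2 * (1 / 2) ^ (t * n) * side q.1 ^ d) := by
    rintro ⟨j, m⟩
    by_cases hq : (j, m) ∈ R ∧ j ≠ 0
    · obtain ⟨hq1, hq2⟩ := hq
      obtain ⟨g, rfl⟩ : ∃ g, j = g + 1 := ⟨j - 1, by omega⟩
      obtain ⟨m', h1, h2, h3⟩ := hS R hR2 hR4 g m hq1 t
      exact ⟨m', fun _ _ => ⟨h1, h2, h3⟩⟩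
    · exact ⟨0, fun h1 h2 => absurd ⟨h1, h2⟩ hq⟩
  choose m' hm' using hsel
  obtain ⟨A, hA⟩ : ∃ A : ℕ × (Fin n → ℤ) → Finset (ℕ × (Fin n → ℤ)), A = fun q =>
    if q.1 = 0 then ∅ else R.filter (fun q' => cube q'.1 q'.2 ⊆ cube (q.1 + t) (m' q)) := ⟨_, rfl⟩
  obtain ⟨μ, hμ1, hμ2, hμ3⟩ := hMU R (fun q => side q.1 ^ d) A h p hh0 hp hp1.le
    (fun q _ => Real.rpow_pos_of_pos (side_pos _) _)
    (by
      intro q _
      rw [hA]
      dsimp only
      split_ifs
      · exact Finset.empty_subset _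
      · exact Finset.filter_subset _ _)
    (by
      intro q hq
      have hside : 0 < side q.1 ^ d := Real.rpow_pos_of_pos (side_pos _) _
      rw [hA]
      dsimp only
      split_ifs with h0
      · rw [Finset.sum_empty, mul_zero]
        linarith
      · have h1 := (hm' q hq h0).2.2 (R.filter (fun q' => cube q'.1 q'.2 ⊆ cube (q.1 + t) (m' q)))
          (fun q' => by rw [Finset.mem_filter])
        have h2 : 0 ≤ h ^ p := Real.rpow_nonneg hh0 _
        calc h ^ p * ∑ q' ∈ R with cube q'.1 q'.2 ⊆ cube (q.1 + t) (m' q), side q'.1 ^ d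
            ≤ h ^ p * (C2 * (1 / 2) ^ (t * n) * side q.1 ^ d) := mul_le_mul_of_nonneg_left h1 h2
          _ = (h ^ p * (C2 * (1 / 2) ^ (t * n))) * side q.1 ^ d := by ring
          _ ≤ (1 / 2) * side q.1 ^ d := mul_le_mul_of_nonneg_right hhp hside.le
          _ = side q.1 ^ d / 2 := by ring)
  obtain ⟨z, hz⟩ : ∃ z : ℕ × (Fin n → ℤ) → E n, z = fun q =>
    (2 : ℝ) ^ q.1 • (ctr (q.1 + t) (m' q) - ctr q.1 q.2) := ⟨_, rfl⟩
  obtain ⟨a, ha'⟩ : ∃ a : ℕ × (Fin n → ℤ) → E n → ℝ, a = fun q x =>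
    if q.1 = 0 then β (x - ctr 0 q.2) else
      atm β l w (z q) ((2 : ℝ) ^ q.1 • x - (2 : ℝ) ^ q.1 • ctr q.1 q.2) := ⟨_, rfl⟩
  have ha0 : ∀ q : ℕ × (Fin n → ℤ), q.1 = 0 → a q = fun x => β (x - ctr 0 q.2) := by
    intro q hq
    rw [ha']
    funext x
    simp only [hq, if_true]
  have ha1 : ∀ q : ℕ × (Fin n → ℤ), q.1 ≠ 0 → a q = fun x =>
      atm β l w (z q) ((2 : ℝ) ^ q.1 • x - (2 : ℝ) ^ q.1 • ctr q.1 q.2) := by
    intro q hq
    rw [ha']
    funext x
    simp only [hq, if_false]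
  have hsm : ∀ q, ContDiff ℝ ∞ (a q) := by
    intro q
    by_cases hq : q.1 = 0
    · rw [ha0 q hq]
      exact hβ1.comp (by fun_prop)
    · rw [ha1 q hq]
      exact comp_affine_smooth (atm_smooth hβ1 l w (z q)) _ _
  have hcs : ∀ q, HasCompactSupport (a q) := by
    intro q
    by_cases hq : q.1 = 0
    · rw [ha0 q hq]
      exact hβ2.comp_homeomorph (Homeomorph.subRight _)
    · rw [ha1 q hq]
      exact comp_affine_support (atm_support hβ2 (z q) (fun k => (hl k).1))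
        (pow_ne_zero _ (by norm_num)) _
  refine ⟨fun x => ∑ q ∈ R, μ q * a q x, ContDiff.sum fun q _ => contDiff_const.mul (hsm q),
    sum_support R μ a hcs, ?_, ?_⟩
  · -- lower bound
    intro q1 hq1 x hx
    obtain ⟨q2, hq2, hx2⟩ := hR1 q1 hq1 x hx
    have key : ∀ q ∈ R, (if q = q2 then (1 : ℝ) else 0) - (if q2 ∈ A q then h else 0) ≤ a q x := by
      intro q hq
      by_cases hq0 : q.1 = 0
      · rw [ha0 q hq0]
        have hAq : A q = ∅ := by rw [hA]; simp only [hq0, if_true]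
        rw [hAq, if_neg (Finset.notMem_empty _), sub_zero]
        split_ifs with he
        · have h1 := hG1 q.1 q.2 x (he ▸ hx2)
          rw [hq0, pow_zero, one_smul, one_smul] at h1
          exact h1.ge
        · exact (hβ3 _).1
      · rw [ha1 q hq0]
        have hAq : A q = R.filter (fun q' => cube q'.1 q'.2 ⊆ cube (q.1 + t) (m' q)) := by
          rw [hA]; simp only [hq0, if_false]
        have hfirst : (if q = q2 then (1 : ℝ) else 0) ≤
            β ((2 : ℝ) ^ q.1 • x - (2 : ℝ) ^ q.1 • ctr q.1 q.2) := by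
          split_ifs with he
          · exact (hG1 q.1 q.2 x (he ▸ hx2)).ge
          · exact (hβ3 _).1
        obtain ⟨hs1, hs2, -⟩ := hm' q hq hq0
        by_cases hx3 : x ∈ cube (q.1 + t) (m' q)
        · have hmem : q2 ∈ A q := by
            rw [hAq, Finset.mem_filter]
            refine ⟨hq2, ?_⟩
            rcases le_total (q.1 + t) q2.1 with hle | hle
            · rcases (hDY n).2.2.2.1 (q.1 + t) q2.1 (m' q) q2.2 hle with h1 | h1
              · exact h1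
              · exact (Set.disjoint_left.mp h1 hx2 hx3).elim
            · rcases (hDY n).2.2.2.1 q2.1 (q.1 + t) q2.2 (m' q) hle with h1 | h1
              · exact (hs2 q2 hq2 h1).elim
              · exact (Set.disjoint_left.mp h1 hx3 hx2).elim
          rw [if_pos hmem]
          have h1 := atm_lower hβ3 (w := w) (fun k => (hl k).1) (z q)
            ((2 : ℝ) ^ q.1 • x - (2 : ℝ) ^ q.1 • ctr q.1 q.2)
          rw [← hh] at h1
          linarith
        · have h1 : atm β l w (z q) ((2 : ℝ) ^ q.1 • x - (2 : ℝ) ^ q.1 • ctr q.1 q.2) =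
              β ((2 : ℝ) ^ q.1 • x - (2 : ℝ) ^ q.1 • ctr q.1 q.2) := by
            apply atm_eq
            intro k
            by_contra hne
            apply hx3
            obtain ⟨j, m⟩ := q
            obtain ⟨g, rfl⟩ : ∃ g, j = g + 1 := ⟨j - 1, by
              simp only at hq0
              omega⟩
            rw [hz] at hne
            exact (hG2 g t m (m' (g + 1, m)) hs1).2 (l k) (hl k).1 (hl0d ▸ (hl k).2) x hne
          dsimp only
          rw [h1]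
          have h2 : 0 ≤ (if q2 ∈ A q then h else 0) := by split_ifs <;> linarith
          linarith
    have h1 : ∑ q ∈ R, μ q * ((if q = q2 then (1 : ℝ) else 0) - (if q2 ∈ A q then h else 0)) ≤
        ∑ q ∈ R, μ q * a q x :=
      Finset.sum_le_sum fun q hq =>
        mul_le_mul_of_nonneg_left (key q hq) (by linarith [hμ1 q hq])
    have h2 : ∑ q ∈ R, μ q * ((if q = q2 then (1 : ℝ) else 0) - (if q2 ∈ A q then h else 0)) =
        μ q2 - ∑ q ∈ R.filter (fun q => q2 ∈ A q), h * μ q := by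
      simp_rw [mul_sub]
      rw [Finset.sum_sub_distrib]
      congr 1
      · simp only [mul_ite, mul_one, mul_zero]
        rw [Finset.sum_ite_eq' R q2 μ, if_pos hq2]
      · rw [Finset.sum_filter]
        refine Finset.sum_congr rfl fun q _ => ?_
        split_ifs
        · ring
        · ring
    have h3 := hμ2 q2 hq2
    dsimp only
    linarith
  · -- the cost
    have h1 := hPT n Φ α p hp hp1.le R μ a (fun q _ => ⟨(hsm q).continuous, hcs q⟩)
    have h2 : ∀ q ∈ R, besov Φ α p (cx (a q)) ≤ C3 * ENNReal.ofReal (side q.1 ^ d) := by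
      intro q hq
      by_cases hq0 : q.1 = 0
      · rw [ha0 q hq0, hq0]
        have : side 0 = 1 := by simp [side]
        rw [this, Real.one_rpow, ENNReal.ofReal_one, mul_one]
        exact hA2 _
      · rw [ha1 q hq0, hd]
        apply hA1
        obtain ⟨hs1, -, -⟩ := hm' q hq hq0
        obtain ⟨j, m⟩ := q
        obtain ⟨g, rfl⟩ : ∃ g, j = g + 1 := ⟨j - 1, by
          simp only at hq0
          omega⟩
        rw [hz]
        exact (hG2 g t m (m' (g + 1, m)) hs1).1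
    calc besov Φ α p (cx fun x => ∑ q ∈ R, μ q * a q x)
        ≤ ∑ q ∈ R, ENNReal.ofReal (|μ q| ^ p) * besov Φ α p (cx (a q)) := h1
      _ ≤ ∑ q ∈ R, ENNReal.ofReal (|μ q| ^ p) * (C3 * ENNReal.ofReal (side q.1 ^ d)) :=
          Finset.sum_le_sum fun q hq => by gcongr; exact h2 q hq
      _ = C3 * ∑ q ∈ R, ENNReal.ofReal (μ q ^ p * side q.1 ^ d) := by
          rw [Finset.mul_sum]
          refine Finset.sum_congr rfl fun q hq => ?_
          have h3 : 0 ≤ μ q := by linarith [hμ1 q hq]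
          rw [abs_of_nonneg h3, ENNReal.ofReal_mul (Real.rpow_nonneg h3 _)]
          ring
      _ = C3 * ENNReal.ofReal (∑ q ∈ R, μ q ^ p * side q.1 ^ d) := by
          rw [ENNReal.ofReal_sum_of_nonneg]
          intro q hq
          exact mul_nonneg (Real.rpow_nonneg (by linarith [hμ1 q hq]) _)
            (Real.rpow_nonneg (side_pos _).le _)
      _ ≤ C3 * ENNReal.ofReal (2 * ∑ q ∈ F, side q.1 ^ d) := by
          gcongr
          refine hμ3.trans ?_
          exact mul_le_mul_of_nonneg_left hR3 (by norm_num)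
      _ = C3 * 2 * ∑ q ∈ F, ENNReal.ofReal (side q.1 ^ ((n : ℝ) - α * p)) := by
          rw [ENNReal.ofReal_mul (by norm_num), ENNReal.ofReal_sum_of_nonneg
            (fun q _ => Real.rpow_nonneg (side_pos _).le _), hd, ENNReal.ofReal_ofNat, mul_assoc]

end Run7.h781.BC
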